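import Mathlib

set_option autoImplicit false
open scoped commutatorElement

namespace Pool.Agent.H.MP_f6f6d4_al

abbrev V : Type := ℚ →₀ ZMod 2
abbrev GV : Type := V ≃ₗ[ZMod 2] V

noncomputable def dl (a : ℚ) : V := Finsupp.single a 1

lemma vv (v : V) : v + v = 0 := by
  ext i; simp [CharTwo.add_self_eq_zero]

noncomputable def El (α β : ℚ) : V →ₗ[ZMod 2] V :=
  LinearMap.id + (Finsupp.lapply β).smulRight (dl α)

lemma El_apply (α β : ℚ) (v : V) : El α β v = v + v β • dl α := rfl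

lemma El_El {α β : ℚ} (h : α < β) (v : V) : El α β (El α β v) = v := by
  simp [El_apply, dl, h.ne', add_assoc, vv, -Finsupp.smul_single]

open Classical in
noncomputable def E (α β : ℚ) : GV :=
  if h : α < β then LinearEquiv.ofInvolutive (El α β) (El_El h) else 1

lemma E_apply {α β : ℚ} (h : α < β) (v : V) : E α β v = v + v β • dl α := by
  rw [E, dif_pos h]; rfl

lemma E_inv {α β : ℚ} (h : α < β) : (E α β)⁻¹ = E α β :=
  inv_eq_of_mul_eq_one_right (LinearEquiv.ext fun v => by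
    show E α β (E α β v) = v
    rw [E_apply h, E_apply h]; exact El_El h v)

noncomputable def M : Subgroup GV := Subgroup.closure {g | ∃ α β, α < β ∧ g = E α β}

lemma E_mem (α β : ℚ) : E α β ∈ M := by
  by_cases h : α < β
  · exact Subgroup.subset_closure ⟨α, β, h, rfl⟩
  · rw [E, dif_neg h]; exact M.one_mem

lemma ind {p : GV → Prop} (h1 : p 1) (hE : ∀ α β, α < β → p (E α β))
    (hm : ∀ x y, p x → p y → p (x * y)) {x : GV} (hx : x ∈ M) : p x := by
  induction hx using Subgroup.closure_induction'' with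
  | one => exact h1
  | mem x hx => obtain ⟨α, β, h, rfl⟩ := hx; exact hE _ _ h
  | inv_mem x hx => obtain ⟨α, β, h, rfl⟩ := hx; rw [E_inv h]; exact hE _ _ h
  | mul x y _ _ a b => exact hm _ _ a b

lemma fix {x : GV} (hx : x ∈ M) : ∃ a, ∀ α ≤ a, x (dl α) = dl α := by
  refine ind (p := fun x => ∃ a, ∀ α ≤ a, x (dl α) = dl α) ⟨0, fun _ _ => rfl⟩
    (fun α β h => ⟨β - 1, fun γ hγ => ?_⟩) ?_ hx
  · rw [E_apply h, dl, Finsupp.single_eq_of_ne (by linarith), zero_smul, add_zero]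
  · rintro x y ⟨a, ha⟩ ⟨b, hb⟩
    refine ⟨min a b, fun α h => ?_⟩
    show x (y _) = _
    rw [hb α (h.trans (min_le_right _ _)), ha α (h.trans (min_le_left _ _))]

lemma low {x : GV} (hx : x ∈ M) (c : ℚ) : ∀ v : V, (∀ l > c, v l = 0) → ∀ l > c, x v l = 0 := by
  refine ind (p := fun x => ∀ v : V, (∀ l > c, v l = 0) → ∀ l > c, x v l = 0)
    (fun v h => h) (fun α β h v hv l hl => ?_) (fun x y a b v hv => a _ (b v hv)) hx
  rw [E_apply h]
  by_cases hb : c < β
  · simp [hv l hl, hv β hb]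
  · simp [hv l hl, dl, Finsupp.single_eq_of_ne (show l ≠ α by linarith [not_lt.1 hb])]

lemma key {x : GV} (hx : x ∈ M) (h1 : x ≠ 1) : ∃ a b, a < b ∧ ∀ α ≤ a, ∀ β ≥ b,
    ∃ g ∈ M, ∃ h ∈ M, E α β = ⁅⁅x, g⁆, h⁆ := by
  obtain ⟨μ, l, hf⟩ : ∃ μ l, (x⁻¹ (dl μ)) l + dl μ l = 1 := by
    by_contra hn
    push Not at hn
    refine inv_ne_one.2 h1 (LinearEquiv.toLinearMap_injective (Finsupp.lhom_ext' fun μ =>
      LinearMap.ext_ring (Finsupp.ext fun l => ?_)))
    have := hn μ l
    show (x⁻¹ (dl μ)) l = dl μ l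
    revert this
    generalize (x⁻¹ (dl μ)) l = p
    generalize dl μ l = q
    revert p q; decide
  obtain ⟨a, ha⟩ := fix hx
  refine ⟨min a (min (l - 1) (μ - 1)), μ + 1, ?_, fun α hα β hβ => ?_⟩
  · have := (min_le_right a _).trans (min_le_right (l - 1) (μ - 1)); linarith
  have h2 := ha α (hα.trans (min_le_left _ _))
  have h3 : α < l := by linarith [hα.trans ((min_le_right _ _).trans (min_le_left _ _))]
  have h4 : α < μ := by linarith [hα.trans ((min_le_right _ _).trans (min_le_right _ _))]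
  have h5 : μ < β := by linarith
  have h6 : x⁻¹ (dl α) = dl α := by
    rw [← h2, ← LinearEquiv.mul_apply, inv_mul_cancel, h2]; rfl
  have hxx : ∀ v, x (x⁻¹ v) = v := fun v => by
    rw [← LinearEquiv.mul_apply, mul_inv_cancel]; rfl
  have d1 : dl α l = 0 := Finsupp.single_eq_of_ne h3.ne'
  have d2 : dl α β = 0 := Finsupp.single_eq_of_ne (h4.trans h5).ne'
  have d3 : dl μ β = 0 := Finsupp.single_eq_of_ne h5.ne'
  have hy : ∀ v, ⁅x, E α l⁆ v = v + (x⁻¹ v l + v l) • dl α := fun v => by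
    rw [commutatorElement_def, E_inv h3]
    simp only [LinearEquiv.mul_apply, E_apply h3, map_add, map_smul, h6, h2, hxx,
      d1, zero_smul, add_zero, add_smul]
    abel
  refine ⟨E α l, E_mem _ _, E μ β, E_mem _ _, ?_⟩
  have hy' : ⁅x, E α l⁆⁻¹ = ⁅x, E α l⁆ :=
    inv_eq_of_mul_eq_one_right (LinearEquiv.ext fun v => by
      show ⁅x, E α l⁆ (⁅x, E α l⁆ v) = v
      rw [hy, hy]
      simp only [map_add, map_smul, h6, Finsupp.add_apply, Finsupp.smul_apply, d1, smul_zero,
        add_zero]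
      rw [add_assoc, vv, add_zero])
  rw [commutatorElement_def, hy', E_inv h5]
  refine LinearEquiv.ext fun v => ?_
  simp only [LinearEquiv.mul_apply, hy, E_apply h5, E_apply (h4.trans h5), map_add, map_smul, h6,
    Finsupp.add_apply, Finsupp.smul_apply, d1, d2, d3, smul_zero, add_zero, smul_eq_mul, mul_zero]
  have e : x⁻¹ (dl μ) l = 1 + dl μ l := by
    rw [← hf, add_assoc, CharTwo.add_self_eq_zero, add_zero]
  rw [e]
  ext i
  simp only [Finsupp.add_apply, Finsupp.smul_apply, smul_eq_mul]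
  generalize x⁻¹ v l = p1
  generalize v l = p2
  generalize v β = p3
  generalize dl μ l = p4
  generalize dl μ i = p5
  generalize dl α i = p6
  generalize v i = p7
  revert p1 p2 p3 p4 p5 p6 p7; decide

noncomputable def e (α β : ℚ) : M := ⟨E α β, E_mem α β⟩

structure Good (H : Type) [Group H] (e : ℚ → ℚ → H) : Prop where
  key : ∀ x : H, x ≠ 1 → ∃ a b, a < b ∧ ∀ α ≤ a, ∀ β ≥ b, ∃ g h : H, e α β = ⁅⁅x, g⁆, h⁆
  ne : ∀ α β, α < β → e α β ≠ 1
  gen : Subgroup.closure {g | ∃ α β, α < β ∧ g = e α β} = ⊤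
  aut : ∀ α β α' β', α < β → α' < β' → ∃ φ : MulAut H, φ (e α β) = e α' β'
  nor : ∀ α β, α < β → ∃ N : Subgroup H, N.Normal ∧ e (α - 1) β ∈ N ∧ e α β ∉ N

lemma conj_E (σ : ℚ ≃o ℚ) {α β : ℚ} (h : α < β) :
    MulAut.conj (Finsupp.domLCongr σ.toEquiv : GV) (E α β) = E (σ α) (σ β) := by
  refine LinearEquiv.ext fun v => ?_
  rw [E_apply (σ.strictMono h), MulAut.conj_apply, LinearEquiv.mul_apply, LinearEquiv.mul_apply,
    E_apply h, map_add, map_smul]
  congr 1
  · exact LinearEquiv.apply_symm_apply _ _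
  · congr 1
    simp [dl]

theorem good : Good M e where
  key x hx := by
    obtain ⟨a, b, hab, h⟩ := key x.2 fun h => hx (Subtype.ext h)
    refine ⟨a, b, hab, fun α hα β hβ => ?_⟩
    obtain ⟨g, hg, k, hk, h⟩ := h α hα β hβ
    exact ⟨⟨g, hg⟩, ⟨k, hk⟩, Subtype.ext h⟩
  ne α β h h1 := by
    have : E α β (dl β) α = dl β α := by rw [show E α β = 1 from congrArg Subtype.val h1]; rfl
    simp [E_apply h, dl] at this
  gen := by
    refine Subgroup.map_injective M.subtype_injective ?_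
    rw [MonoidHom.map_closure, ← MonoidHom.range_eq_map, Subgroup.range_subtype]
    refine congrArg Subgroup.closure (Set.ext fun g => ⟨?_, ?_⟩)
    · rintro ⟨_, ⟨a, b, hab, rfl⟩, rfl⟩
      exact ⟨a, b, hab, rfl⟩
    · rintro ⟨a, b, hab, rfl⟩
      exact ⟨_, ⟨a, b, hab, rfl⟩, rfl⟩
  aut α β α' β' h h' := by
    have hp : 0 < (β' - α') / (β - α) := div_pos (sub_pos.2 h') (sub_pos.2 h)
    let σ : ℚ ≃o ℚ := ((OrderIso.subRight α).trans (OrderIso.mulRight₀ _ hp)).trans
      (OrderIso.addRight α')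
    have s1 : σ α = α' := by simp [σ]
    have s2 : σ β = β' := by
      simp [σ]; field_simp [(sub_pos.2 h).ne']; ring
    have hM : M.map (MulAut.conj (Finsupp.domLCongr σ.toEquiv : GV)).toMonoidHom = M := by
      rw [M, MonoidHom.map_closure]
      congr 1
      ext g
      constructor
      · rintro ⟨_, ⟨a, b, hab, rfl⟩, rfl⟩
        exact ⟨σ a, σ b, σ.strictMono hab, conj_E σ hab⟩
      · rintro ⟨a, b, hab, rfl⟩
        refine ⟨_, ⟨σ.symm a, σ.symm b, σ.symm.strictMono hab, rfl⟩, ?_⟩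
        simpa using conj_E σ (σ.symm.strictMono hab)
    refine ⟨((MulAut.conj (Finsupp.domLCongr σ.toEquiv : GV)).subgroupMap M).trans
      (MulEquiv.subgroupCongr hM), Subtype.ext ?_⟩
    rw [← s1, ← s2]
    exact conj_E σ h
  nor α β h := by
    refine ⟨⟨⟨⟨{x | ∀ v : V, ∀ l > α - 1, (x.1 v - v) l = 0}, fun {x y} hx hy v l hl => ?_⟩,
      fun v l _ => by simp⟩, fun {x} hx v l hl => ?_⟩, ⟨fun x hx g v l hl => ?_⟩,
      fun v l hl => ?_, fun hn => ?_⟩
    · have a := hx (y.1 v) l hl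
      have b := hy v l hl
      simp only [Finsupp.sub_apply, sub_eq_zero] at a b ⊢
      exact a.trans b
    · have a := hx (x.1⁻¹ v) l hl
      rw [← LinearEquiv.mul_apply, mul_inv_cancel] at a
      simp only [Finsupp.sub_apply, sub_eq_zero] at a ⊢
      exact a.symm
    · have a := low g.2 _ _ (hx (g.1⁻¹ v)) l hl
      rw [map_sub, ← LinearEquiv.mul_apply g.1 g.1⁻¹, mul_inv_cancel] at a
      exact a
    · show (E (α - 1) β v - v) l = 0
      simp [E_apply (show α - 1 < β by linarith), dl, Finsupp.single_eq_of_ne hl.ne']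
    · have : (E α β (dl β) - dl β) α = 0 := hn (dl β) α (by linarith)
      simp [E_apply h, dl] at this

end Pool.Agent.H.MP_f6f6d4_al
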